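import Pool.Agent.E8helper59.PN.Stm

/-!
# Project PN, piece S_SUBC: the cube splits into `2^n` parts (helper82)
-/

set_option autoImplicit false

open Set

namespace Pool.Agent.E8helper82.PN

open Pool.Agent.E8helper59.PN

theorem zero_nhds {n : ℕ} {G : Set (Fin n → ℝ)} (hG : Body G) (hs : ∀ x ∈ G, -x ∈ G) :
    G ∈ nhds (0 : Fin n → ℝ) := by
  obtain ⟨-, hc, x, hx⟩ := hG
  have h1 : -x ∈ interior G := by
    rw [mem_interior_iff_mem_nhds] at hx ⊢
    have h2 : (fun y : Fin n → ℝ => -y) ⁻¹' G ∈ nhds (-x) := by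
      apply continuous_neg.continuousAt.preimage_mem_nhds
      rwa [neg_neg]
    refine Filter.mem_of_superset h2 fun y hy => ?_
    have := hs _ hy
    rwa [neg_neg] at this
  have h2 : (0 : Fin n → ℝ) ∈ interior G := by
    have h3 := hc.interior hx h1 (by norm_num : (0 : ℝ) ≤ 1 / 2) (by norm_num : (0 : ℝ) ≤ 1 / 2)
      (by norm_num)
    have e : (1 / 2 : ℝ) • x + (1 / 2 : ℝ) • (-x) = 0 := by simp
    rwa [e] at h3
  exact mem_interior_iff_mem_nhds.1 h2

theorem cube_compact (n : ℕ) : IsCompact (Cube n) := by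
  have e : Cube n = Set.pi Set.univ (fun _ : Fin n => Icc (0 : ℝ) 1) := by
    ext x
    simp only [Cube, Set.mem_pi, Set.mem_univ, forall_const, Set.mem_ofPred_eq]
  rw [e]
  exact isCompact_univ_pi fun _ => isCompact_Icc

theorem le_Dm {n : ℕ} {G : Set (Fin n → ℝ)} (hG : Body G) (hs : ∀ x ∈ G, -x ∈ G)
    {p q : Fin n → ℝ} (hp : p ∈ Cube n) (hq : q ∈ Cube n) : gauge G (p - q) ≤ Dm G (Cube n) := by
  have hc : Continuous (gauge G) := continuous_gauge hG.2.1 (zero_nhds hG hs)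
  have hcomp : IsCompact (Cube n ×ˢ Cube n) := (cube_compact n).prod (cube_compact n)
  have hcont : Continuous (fun p : (Fin n → ℝ) × (Fin n → ℝ) => gauge G (p.1 - p.2)) :=
    hc.comp (continuous_fst.sub continuous_snd)
  have hb := hcomp.bddAbove_image hcont.continuousOn
  exact le_csSup hb ⟨(p, q), ⟨hp, hq⟩, rfl⟩

theorem Dm_pos {n : ℕ} (hn : 1 ≤ n) {G : Set (Fin n → ℝ)} (hG : Body G)
    (hs : ∀ x ∈ G, -x ∈ G) : 0 < Dm G (Cube n) := by
  have h0 : (fun _ => 0 : Fin n → ℝ) ∈ Cube n := fun i => ⟨le_rfl, zero_le_one⟩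
  have h1 : (fun _ => 1 : Fin n → ℝ) ∈ Cube n := fun i => ⟨zero_le_one, le_rfl⟩
  refine lt_of_lt_of_le ?_ (le_Dm hG hs h1 h0)
  have habs : Absorbent ℝ G := absorbent_nhds_zero (zero_nhds hG hs)
  have hb : Bornology.IsVonNBounded ℝ G := by
    rw [NormedSpace.isVonNBounded_iff]
    exact hG.1.isBounded
  rw [gauge_pos habs hb]
  intro hc
  have := congrFun hc ⟨0, hn⟩
  simp at this

theorem t_SUBC : S_SUBC := by
  intro n G hn hG hs
  have hD := Dm_pos hn hG hs
  have hcard : Fintype.card (Fin n → Bool) = 2 ^ n := by simp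
  let e : (Fin n → Bool) ≃ Fin (2 ^ n) := Fintype.equivFinOfCardEq hcard
  refine ⟨fun i => {x | x ∈ Cube n ∧ ∀ j, 2 * x j - vx (e.symm i) j ∈ Icc (0 : ℝ) 1}, ?_, ?_⟩
  · ext x
    rw [Set.mem_iUnion]
    constructor
    · rintro ⟨i, hx, -⟩
      exact hx
    · intro hx
      refine ⟨e (fun j => decide (1 / 2 ≤ x j)), hx, fun j => ?_⟩
      rw [Equiv.symm_apply_apply]
      have h1 := hx j
      unfold vx
      by_cases h : 1 / 2 ≤ x j
      · simp only [h, decide_true, if_true]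
        exact ⟨by linarith, by linarith [h1.2]⟩
      · simp only [h, decide_false]
        exact ⟨by simp; linarith [h1.1], by simp; linarith [not_le.1 h]⟩
  · intro i
    refine ⟨Dm G (Cube n) / 2, by linarith, ?_⟩
    rintro x ⟨-, hx⟩ y ⟨-, hy⟩
    have h1 := le_Dm hG hs (p := fun j => 2 * x j - vx (e.symm i) j)
      (q := fun j => 2 * y j - vx (e.symm i) j) hx hy
    have h2 : (fun j => 2 * x j - vx (e.symm i) j) - (fun j => 2 * y j - vx (e.symm i) j) =
        (2 : ℝ) • (x - y) := by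
      funext j
      simp only [Pi.sub_apply, Pi.smul_apply, smul_eq_mul]
      ring
    rw [h2, gauge_smul_of_nonneg (by norm_num : (0 : ℝ) ≤ 2), smul_eq_mul] at h1
    linarith

end Pool.Agent.E8helper82.PN
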